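import Pool.Agent.HAR.Stmts

/-!
# Squad HAR, row GDU: good sets (double counting)
-/

namespace Pool.Agent.HAR.H55

open Finset

/-- the number of the `u`-sets which contain `T` -/
theorem card_supersets {n u : ℕ} (T : Finset (Fin n)) :
    ((powersetCard u (univ : Finset (Fin n))).filter fun U => T ⊆ U).card ≤
      (n - T.card).choose (u - T.card) := by
  have h1 : (univ \ T).card = n - T.card := by
    rw [card_sdiff_of_subset (subset_univ T), card_univ, Fintype.card_fin]
  rw [← h1, ← card_powersetCard]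
  refine card_le_card_of_injOn (fun U => U \ T) ?_ ?_
  · intro U hU
    have hU' := (mem_filter.1 (mem_coe.1 hU))
    have h2 := (mem_powersetCard.1 hU'.1).2
    apply mem_coe.2
    rw [mem_powersetCard]
    refine ⟨sdiff_subset_sdiff (subset_univ U) (Subset.refl T), ?_⟩
    rw [card_sdiff_of_subset hU'.2, h2]
  · intro U hU V hV h
    have hU' := (mem_filter.1 (mem_coe.1 hU)).2
    have hV' := (mem_filter.1 (mem_coe.1 hV)).2
    have h2 : U \ T = V \ T := h
    rw [← sdiff_union_of_subset hU', h2, sdiff_union_of_subset hV']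

open Classical in
/-- double counting for one size -/
theorem one_size {n u t : ℕ} (Bad : Finset (Fin n) → Prop) [DecidablePred Bad] (ε : ℝ) (htu : t ≤ u)
    (hB : (((powersetCard t (univ : Finset (Fin n))).filter Bad).card : ℝ) ≤ ε * n.choose t) :
    (((powersetCard u (univ : Finset (Fin n))).filter fun U =>
      (u.choose t : ℝ) < 4 * ((powersetCard t U).filter Bad).card).card : ℝ) ≤
      4 * ε * n.choose u := by
  set P := powersetCard u (univ : Finset (Fin n)) with hP
  set Q := (powersetCard t (univ : Finset (Fin n))).filter Bad with hQ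
  -- the double sum
  have h1 : ∑ U ∈ P, ((powersetCard t U).filter Bad).card ≤ Q.card * (n - t).choose (u - t) := by
    have e1 : ∀ U ∈ P, ((powersetCard t U).filter Bad).card = (Q.filter fun T => T ⊆ U).card := by
      intro U _
      congr 1
      ext T
      simp only [hQ, mem_filter, mem_powersetCard]
      constructor
      · rintro ⟨⟨a, b⟩, c⟩
        exact ⟨⟨⟨subset_univ T, b⟩, c⟩, a⟩
      · rintro ⟨⟨⟨_, b⟩, c⟩, a⟩
        exact ⟨⟨a, b⟩, c⟩
    rw [sum_congr rfl e1]
    have e2 : ∑ U ∈ P, (Q.filter fun T => T ⊆ U).card =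
        ∑ T ∈ Q, (P.filter fun U => T ⊆ U).card := by
      simp only [card_filter]
      exact sum_comm
    rw [e2, ← smul_eq_mul, ← sum_const]
    apply sum_le_sum
    intro T hT
    have h2 : T.card = t := (mem_powersetCard.1 (mem_filter.1 hT).1).2
    have h3 := card_supersets (u := u) T
    rw [h2] at h3
    exact h3
  have h2 : (u.choose t : ℝ) * ((P.filter fun U =>
      (u.choose t : ℝ) < 4 * ((powersetCard t U).filter Bad).card).card : ℝ) ≤
      4 * ∑ U ∈ P, (((powersetCard t U).filter Bad).card : ℝ) := by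
    rw [mul_sum, mul_comm, ← nsmul_eq_mul, ← sum_const]
    refine (sum_le_sum fun U hU => (mem_filter.1 hU).2.le).trans ?_
    exact sum_le_sum_of_subset_of_nonneg (filter_subset _ _) fun U _ _ => by positivity
  have h3 : (n.choose u : ℝ) * u.choose t = n.choose t * (n - t).choose (u - t) := by
    exact_mod_cast Nat.choose_mul htu
  have h4 : (0 : ℝ) < u.choose t := by exact_mod_cast Nat.choose_pos htu
  have h5 : (∑ U ∈ P, (((powersetCard t U).filter Bad).card : ℝ)) ≤
      Q.card * (n - t).choose (u - t) := by exact_mod_cast h1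
  have h6 : (Q.card : ℝ) * (n - t).choose (u - t) ≤ ε * n.choose t * (n - t).choose (u - t) :=
    mul_le_mul_of_nonneg_right hB (by positivity)
  refine le_of_mul_le_mul_left ?_ h4
  calc _ ≤ 4 * ∑ U ∈ P, (((powersetCard t U).filter Bad).card : ℝ) := h2
    _ ≤ 4 * (ε * n.choose t * (n - t).choose (u - t)) := by linarith
    _ = 4 * ε * ((n.choose t : ℝ) * (n - t).choose (u - t)) := by ring
    _ = (u.choose t : ℝ) * (4 * ε * n.choose u) := by rw [← h3]; ring

theorem gdu : GduStmt := by
  intro n ε G hT hε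
  classical
  have hun : uu n ≤ n := Nat.sub_le _ _
  set P := powersetCard (uu n) (univ : Finset (Fin n)) with hP
  set B : ℕ → Finset (Finset (Fin n)) := fun t => P.filter fun U =>
      ((uu n).choose t : ℝ) < 4 * ((powersetCard t U).filter fun S => ¬ Uq G S).card with hBdef
  have hcard : ∀ (U : Finset (Fin n)) (t : ℕ),
      Nat.card {S : Finset (Fin n) // S ⊆ U ∧ S.card = t ∧ ¬ Uq G S} =
        ((powersetCard t U).filter fun S => ¬ Uq G S).card := by
    intro U t
    apply Nat.subtype_card
    intro S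
    rw [mem_filter, mem_powersetCard]
    tauto
  have h1 : Nat.card {U : Finset (Fin n) // U.card = uu n ∧ ∃ t, tt n ≤ t ∧ t < uu n ∧
      ((uu n).choose t : ℝ) <
        4 * Nat.card {S : Finset (Fin n) // S ⊆ U ∧ S.card = t ∧ ¬ Uq G S}} =
      ((Ico (tt n) (uu n)).biUnion B).card := by
    apply Nat.subtype_card
    intro U
    rw [mem_biUnion]
    constructor
    · rintro ⟨t, ht, hU⟩
      rw [hBdef, mem_filter, mem_powersetCard] at hU
      refine ⟨hU.1.2, t, (mem_Ico.1 ht).1, (mem_Ico.1 ht).2, ?_⟩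
      rw [hcard]
      exact hU.2
    · rintro ⟨hU, t, ht1, ht2, ht3⟩
      refine ⟨t, mem_Ico.2 ⟨ht1, ht2⟩, ?_⟩
      rw [hcard] at ht3
      rw [hBdef, mem_filter, mem_powersetCard]
      exact ⟨⟨subset_univ U, hU⟩, ht3⟩
  have h2 : ∀ t ∈ Ico (tt n) (uu n), ((B t).card : ℝ) ≤ 4 * ε * n.choose (uu n) := by
    intro t ht
    obtain ⟨ht1, ht2⟩ := mem_Ico.1 ht
    exact one_size (fun S => ¬ Uq G S) ε ht2.le (hT t ht1 (by omega))
  have h3 : ((((Ico (tt n) (uu n)).biUnion B).card : ℕ) : ℝ) ≤
      ∑ t ∈ Ico (tt n) (uu n), ((B t).card : ℝ) := by exact_mod_cast card_biUnion_le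
  rw [h1]
  calc ((((Ico (tt n) (uu n)).biUnion B).card : ℕ) : ℝ)
      ≤ ∑ t ∈ Ico (tt n) (uu n), ((B t).card : ℝ) := h3
    _ ≤ ∑ _t ∈ Ico (tt n) (uu n), 4 * ε * n.choose (uu n) := sum_le_sum h2
    _ = (uu n - tt n : ℕ) * (4 * ε * n.choose (uu n)) := by
        rw [sum_const, Nat.card_Ico, nsmul_eq_mul]
    _ ≤ (n : ℝ) * (4 * ε * n.choose (uu n)) := by
        apply mul_le_mul_of_nonneg_right _ (by positivity)
        exact_mod_cast (Nat.sub_le _ _).trans hun
    _ = 4 * n * ε * n.choose (uu n) := by ring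

end Pool.Agent.HAR.H55
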